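import Pool.Agent.Helper25_CN2.Stmts
import Pool.Agent.Helper25_CON.PDLem

/-!
Squad CN2: modules K_BEE, K_BE3, K_BE2
-/

noncomputable section

namespace Pool.Agent.CN2.H15

open Pool.Agent.H25Cong Pool.Agent.CON Pool.Agent.CN2

section

variable {M : Type} [AddCommGroup M] {b : M → M → ℤ} {k : ℕ} {C : Fin k → Set M}
  {s : Fin k → ℤ} {τ : Fin k → Ty}

/-- from JB to JR -/
theorem jr_of_jb {D : Set M} {x : M} {j : ℤ} (h : JB b D x j) :
    JR b (AddSubgroup.closure D) x j fun _ _ => True := by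
  rintro t ρ ⟨⟨z, hz, rfl⟩, h0, h1, h2⟩
  exact ⟨h z hz ρ h0 h1 h2, fun _ => trivial⟩

theorem mem_cl {D : Set M} {x : M} (h : x ∈ D) : x ∈ AddSubgroup.closure D :=
  AddSubgroup.subset_closure h

end

/-- **K_BEE** -/
theorem k_BEE (hX : X_NOR) (hT : T_CAP) (hJ : E_J2) (hN : E_N2) : K_BEE := by
  intro M _ b k C s τ hb hC hbad i0 i1 i2 h0 hbig h12 h1 h2
  obtain ⟨x, hx, hx4, y, hy, hxy⟩ := hT M b (C i0) (s i0) (τ i0) hb (hC.irr i0) h0 (hC.ty i0) hbig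
  obtain ⟨α, hα⟩ := (hC.irr i1).ne
  obtain ⟨β, hβ⟩ := (hC.irr i2).ne
  have n0 := (hN M b (C i0) (s i0) hb (hC.irr i0)).2.2 x hx ⟨y, hy, hxy⟩
  have n1 := (hN M b (C i1) (s i1) hb (hC.irr i1)).1 α hα
  have n2 := (hN M b (C i2) (s i2) hb (hC.irr i2)).1 β hβ
  have e1 : (4 : ℤ) ∣ b α α := by
    rw [(hC.irr i1).norm α hα]
    obtain ⟨c, hc⟩ := h1
    exact ⟨c, by rw [hc]; ring⟩
  have e2 : (4 : ℤ) ∣ b β β := by
    rw [(hC.irr i2).norm β hβ]
    obtain ⟨c, hc⟩ := h2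
    exact ⟨c, by rw [hc]; ring⟩
  have d01 : i0 ≠ i1 := fun e => h0 (e ▸ h1)
  have d02 : i0 ≠ i2 := fun e => h0 (e ▸ h2)
  refine hbad (hX M b k C s τ [(i0, x, 2, fun _ _ => True), (i1, α, 2, fun _ _ => True),
    (i2, β, 2, fun _ _ => True)] hb hC ?_ ?_ ?_ ?_ ?_)
  · simp [d01, d02, h12]
  · intro a ha
    simp only [List.mem_cons, List.not_mem_nil, or_false] at ha
    rcases ha with rfl | rfl | rfl
    · exact ⟨hx, jr_of_jb (hJ M b (C i0) x hb hx n0 hx4)⟩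
    · exact ⟨mem_cl hα, jr_of_jb (hJ M b (C i1) α hb (mem_cl hα) n1 e1)⟩
    · exact ⟨mem_cl hβ, jr_of_jb (hJ M b (C i2) β hb (mem_cl hβ) n2 e2)⟩
  · simp
  · simp only [List.map_cons, List.map_nil, List.sum_cons, List.sum_nil, add_zero]
    exact dvd_add hx4 (dvd_add e1 e2)
  · exact ⟨_, List.mem_cons_self, y, hy, hxy⟩

/-- **K_BE3** -/
theorem k_BE3 (hX : X_NOR) (hT : T_CAP) (hJ : E_J2) (hJ4 : E_J4) (hN : E_N2) (hO : E_ORT)
    (hR : T_RK) : K_BE3 := by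
  intro M _ b k C s τ hb hC hbad i0 i1 h0 hbig h1 hrk
  obtain ⟨x, hx, hx4, y, hy, hxy⟩ := hT M b (C i0) (s i0) (τ i0) hb (hC.irr i0) h0 (hC.ty i0) hbig
  obtain ⟨α, hα, β, hβ, hαβ⟩ := hO M b (C i1) (s i1) hb (hC.irr i1)
    ((hR M b (C i1) (s i1) (τ i1) hb (hC.irr i1) (hC.ty i1) 3).mpr hrk)
  have n0 := (hN M b (C i0) (s i0) hb (hC.irr i0)).2.2 x hx ⟨y, hy, hxy⟩
  have e1 : (4 : ℤ) ∣ b (α + β) (α + β) := by
    rw [hb.add_left, hb.add_right, hb.add_right, hb.symm β α, hαβ, (hC.irr i1).norm α hα,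
      (hC.irr i1).norm β hβ]
    exact ⟨s i1, by ring⟩
  have d01 : i0 ≠ i1 := fun e => h0 (e ▸ h1)
  refine hbad (hX M b k C s τ [(i0, x, 2, fun _ _ => True), (i1, α + β, 4, fun _ _ => True)]
    hb hC ?_ ?_ ?_ ?_ ?_)
  · simp [d01]
  · intro a ha
    simp only [List.mem_cons, List.not_mem_nil, or_false] at ha
    rcases ha with rfl | rfl
    · exact ⟨hx, jr_of_jb (hJ M b (C i0) x hb hx n0 hx4)⟩
    · exact ⟨add_mem (mem_cl hα) (mem_cl hβ),
        jr_of_jb (hJ4 M b (C i1) (s i1) α β hb (hC.irr i1) h1 hα hβ hαβ)⟩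
  · simp
  · simp only [List.map_cons, List.map_nil, List.sum_cons, List.sum_nil, add_zero]
    exact dvd_add hx4 e1
  · exact ⟨_, List.mem_cons_self, y, hy, hxy⟩

/-- **K_BE2** -/
theorem k_BE2 (hX : X_CMP) (hF : X_F1) (hT : T_FIX) (hJ : J_EV) (hN : E_NON) (hR : T_RK) :
    K_BE2 := by
  intro M _ b k C s τ hb hC hbad i0 i1 h0 hfix h1 hrk
  obtain ⟨x, hx, hx4, ⟨y, hy, hxy⟩, hJR⟩ :=
    hT M b (C i0) (s i0) (τ i0) hb (hC.irr i0) h0 (hC.ty i0) hfix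
  obtain ⟨α, hα, β, hβ, hαβ⟩ := hN M b (C i1) (s i1) hb (hC.irr i1)
    ((hR M b (C i1) (s i1) (τ i1) hb (hC.irr i1) (hC.ty i1) 2).mpr hrk.ge)
  have d01 : i0 ≠ i1 := fun e => h0 (e ▸ h1)
  have hs0 := (hC.irr i0).pos
  have hs1 := (hC.irr i1).pos
  have hco : ∀ i, i ≠ i1 → ∀ z ∈ AddSubgroup.closure (C i), ∀ w ∈ AddSubgroup.closure (C i1),
      b z w = 0 := fun i hi =>
    hb.closure_orth fun z hz w hw => hC.orth i i1 hi z hz w hw
  set S1 : AddSubgroup M := AddSubgroup.closure (⋃ i ∈ {i : Fin k | i ≠ i1}, C i) with hS1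
  have hsub : ∀ i, i ≠ i1 → C i ⊆ S1 := by
    intro i hi z hz
    refine AddSubgroup.subset_closure ?_
    exact Set.mem_iUnion₂.mpr ⟨i, hi, hz⟩
  have hsub' : ∀ i, i ≠ i1 → AddSubgroup.closure (C i) ≤ S1 := fun i hi =>
    (AddSubgroup.closure_le S1).mpr (hsub i hi)
  have e1 : (4 : ℤ) ∣ b (x + α) (x + α) := by
    have h3 : b x α = 0 := hco i0 d01 x hx α (mem_cl hα)
    rw [hb.add_left, hb.add_right, hb.add_right, hb.symm α x, h3, (hC.irr i1).norm α hα]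
    obtain ⟨c, hc⟩ := h1
    obtain ⟨d, hd⟩ := hx4
    exact ⟨d + c, by rw [hc, hd]; ring⟩
  -- the components of a new root
  have key : ∀ t ρ, NewR b (x + α) t ρ → ρ = 2 * s i0 ∧
      ((ρ = s i1 ∧ (b t α = 2 * s i1 ∨ b t α = -(2 * s i1))) ∨ (ρ = 3 * s i1 ∧ b t α = 0)) := by
    intro t ρ ht
    obtain ⟨-, T, hTt, hTm, -, hTa⟩ := hX M b k C s τ
      [(i0, x, 2, fun ρ _ => ρ = 2 * s i0), (i1, α, 2, fun ρ t =>
        (ρ = s i1 ∧ (t = α ∨ t = -α)) ∨ (ρ = 3 * s i1 ∧ b t α = 0 ∧ Rk (C i1) 2 ∧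
          ¬ Rk (C i1) 3))] t ρ hb hC (by simp [d01]) (by
        intro a ha
        simp only [List.mem_cons, List.not_mem_nil, or_false] at ha
        rcases ha with rfl | rfl
        · exact ⟨hx, hJR⟩
        · exact ⟨mem_cl hα, hJ M b (C i1) (s i1) α hb (hC.irr i1) h1 hα⟩) (by simp)
        (by simpa using ht)
    have hta : b t α = b (T i1) α := by
      rw [hTt, hb.sum_left]
      refine Finset.sum_eq_single i1 (fun i _ hi => ?_) (fun h => absurd (Finset.mem_univ _) h)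
      exact hco i hi _ (hTm i) α (mem_cl hα)
    have h3 := (hTa _ List.mem_cons_self).2.2
    have h4 := (hTa _ (List.mem_cons_of_mem _ List.mem_cons_self)).2.2
    refine ⟨h3, ?_⟩
    rw [hta]
    rcases h4 with ⟨h5, h6 | h6⟩ | ⟨h5, h6, -⟩
    · left
      refine ⟨h5, Or.inl ?_⟩
      simp only at h6
      rw [h6, (hC.irr i1).norm α hα]
    · left
      refine ⟨h5, Or.inr ?_⟩
      simp only at h6
      rw [h6, hb.neg_left, (hC.irr i1).norm α hα]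
    · right
      exact ⟨h5, h6⟩
  refine hbad (hF M b S1 (C i1) (s i1) x α β (if s i1 = 2 * s i0 then 2 * s i1 else 0) hb
    (hC.irr i1) h1 ?_ ?_ (hsub' i0 d01 hx) hα hβ hαβ ⟨y, hsub' i0 d01 hy, hxy⟩ e1 ?_ ?_)
  · have h5 : ∀ z ∈ S1, ∀ w ∈ AddSubgroup.closure (C i1), b z w = 0 := by
      refine hb.closure_orth fun z hz w hw => ?_
      obtain ⟨i, hi, hz⟩ := Set.mem_iUnion₂.mp hz
      exact hC.orth i i1 hi z hz w hw
    exact fun z hz w hw => h5 z hz w (mem_cl hw)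
  · rw [eq_top_iff]
    intro z _
    refine (AddSubgroup.closure_le (S1 ⊔ AddSubgroup.closure (C i1))).mpr ?_ (hC.gen z)
    intro w hw
    obtain ⟨i, hw⟩ := Set.mem_iUnion.mp hw
    by_cases hi : i = i1
    · subst hi
      exact AddSubgroup.mem_sup_right (mem_cl hw)
    · exact AddSubgroup.mem_sup_left (hsub i hi hw)
  · split_ifs
    · exact dvd_refl _
    · exact dvd_zero _
  · intro t ρ ht
    obtain ⟨h3, h4⟩ := key t ρ ht
    rcases h4 with ⟨h5, h6⟩ | ⟨h5, h6⟩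
    · rw [if_pos (by omega)]
      rcases h6 with h6 | h6
      · rw [h6, sub_self]; exact dvd_zero _
      · rw [h6]; exact ⟨-1, by ring⟩
    · rw [if_neg (by omega), h6, sub_self]
      exact dvd_zero _

end Pool.Agent.CN2.H15

end
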